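import Pool.Agent.W598.IA.Stm

set_option autoImplicit false

namespace Pool.Agent.W599.IA

open Pool.Agent.W598.IA

section

variable {A : Type} [Group A]

/-- nonmetabelian -/
def NM (N : Subgroup A) : Prop := ∃ x ∈ N, ∃ y ∈ N, ∃ z ∈ N, ∃ w ∈ N, cm (cm x y) (cm z w) ≠ 1

/-- centralizers are metabelian -/
def CM (A : Type) [Group A] : Prop := ∀ g : A, g ≠ 1 → ∀ x y z w : A, Commute x g → Commute y g →
  Commute z g → Commute w g → cm (cm x y) (cm z w) = 1

def lf (N : Subgroup A) [N.Normal] (n : A) (h : n ∈ N) : fib N :=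
  ⟨(n, 1), by rw [mem_fib]; simpa using h⟩

def rt (N : Subgroup A) [N.Normal] (n : A) (h : n ∈ N) : fib N :=
  ⟨(1, n), by rw [mem_fib]; simpa using N.inv_mem h⟩

def dg (N : Subgroup A) [N.Normal] (n : A) : fib N :=
  ⟨(n, n), by rw [mem_fib]; simpa using N.one_mem⟩

theorem right_mem (N : Subgroup A) [N.Normal] (p : fib N) (h : p.1.1 = 1) : p.1.2 ∈ N := by
  have := p.2
  rw [mem_fib, h, one_mul] at this
  exact (Subgroup.inv_mem_iff N).1 this

theorem left_mem (N : Subgroup A) [N.Normal] (p : fib N) (h : p.1.2 = 1) : p.1.1 ∈ N := by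
  have := p.2
  rw [mem_fib, h, inv_one, mul_one] at this
  exact this

theorem commLR (N : Subgroup A) [N.Normal] (p q : fib N) (hp : p.1.2 = 1) (hq : q.1.1 = 1) :
    p * q = q * p := by
  apply Subtype.ext
  apply Prod.ext
  · show p.1.1 * q.1.1 = q.1.1 * p.1.1
    rw [hq, mul_one, one_mul]
  · show p.1.2 * q.1.2 = q.1.2 * p.1.2
    rw [hp, mul_one, one_mul]

variable {N M : Subgroup A} [N.Normal] [M.Normal]

theorem cm_fst (p q : fib M) : (cm p q).1.1 = cm p.1.1 q.1.1 := rfl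
theorem cm_snd (p q : fib M) : (cm p q).1.2 = cm p.1.2 q.1.2 := rfl

theorem map_cm (φ : fib N →* fib M) (p q : fib N) : φ (cm p q) = cm (φ p) (φ q) := by
  unfold cm
  simp only [map_mul, map_inv]

/-- general form of the first step -/
theorem stepA (hC : CM A) (φ : fib N →* fib M) (hφ : Function.Injective φ)
    (p : fib N) (x y z w : fib N) (hx : p * x = x * p) (hy : p * y = y * p) (hz : p * z = z * p)
    (hw : p * w = w * p) (hne : cm (cm x y) (cm z w) ≠ 1) :
    (φ p).1.1 = 1 ∨ (φ p).1.2 = 1 := by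
  by_contra hcon
  push Not at hcon
  obtain ⟨ha, hb⟩ := hcon
  have comm1 : ∀ q : fib N, p * q = q * p → Commute (φ q).1.1 (φ p).1.1 := by
    intro q hq
    have h1 : φ p * φ q = φ q * φ p := by rw [← map_mul, hq, map_mul]
    have h2 := congrArg (fun r : fib M => r.1.1) h1
    exact h2.symm
  have comm2 : ∀ q : fib N, p * q = q * p → Commute (φ q).1.2 (φ p).1.2 := by
    intro q hq
    have h1 : φ p * φ q = φ q * φ p := by rw [← map_mul, hq, map_mul]
    have h2 := congrArg (fun r : fib M => r.1.2) h1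
    exact h2.symm
  have e1 := hC _ ha _ _ _ _ (comm1 x hx) (comm1 y hy) (comm1 z hz) (comm1 w hw)
  have e2 := hC _ hb _ _ _ _ (comm2 x hx) (comm2 y hy) (comm2 z hz) (comm2 w hw)
  apply hne
  apply hφ
  rw [map_one, map_cm, map_cm, map_cm]
  apply Subtype.ext
  apply Prod.ext
  · exact e1
  · exact e2

theorem stepL (hC : CM A) (hN : NM N) (φ : fib N →* fib M) (hφ : Function.Injective φ)
    (p : fib N) (hp : p.1.2 = 1) : (φ p).1.1 = 1 ∨ (φ p).1.2 = 1 := by
  obtain ⟨x, hx, y, hy, z, hz, w, hw, hne⟩ := hN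
  refine stepA hC φ hφ p (rt N x hx) (rt N y hy) (rt N z hz) (rt N w hw)
    (commLR N _ _ hp rfl) (commLR N _ _ hp rfl) (commLR N _ _ hp rfl) (commLR N _ _ hp rfl) ?_
  intro h
  exact hne (congrArg (fun r : fib N => r.1.2) h)

theorem stepR (hC : CM A) (hN : NM N) (φ : fib N →* fib M) (hφ : Function.Injective φ)
    (p : fib N) (hp : p.1.1 = 1) : (φ p).1.1 = 1 ∨ (φ p).1.2 = 1 := by
  obtain ⟨x, hx, y, hy, z, hz, w, hw, hne⟩ := hN
  refine stepA hC φ hφ p (lf N x hx) (lf N y hy) (lf N z hz) (lf N w hw)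
    (commLR N _ _ rfl hp).symm (commLR N _ _ rfl hp).symm (commLR N _ _ rfl hp).symm
    (commLR N _ _ rfl hp).symm ?_
  intro h
  exact hne (congrArg (fun r : fib N => r.1.1) h)

theorem dich (φ : fib N →* fib M) (Q : fib N → Prop) (hQ : ∀ p q, Q p → Q q → Q (p * q))
    (h : ∀ p, Q p → (φ p).1.1 = 1 ∨ (φ p).1.2 = 1) :
    (∀ p, Q p → (φ p).1.2 = 1) ∨ (∀ p, Q p → (φ p).1.1 = 1) := by
  by_contra hcon
  push Not at hcon
  obtain ⟨⟨p, hp, hp2⟩, q, hq, hq1⟩ := hcon
  have hp1 : (φ p).1.1 = 1 := (h p hp).resolve_right hp2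
  have hq2 : (φ q).1.2 = 1 := (h q hq).resolve_left hq1
  rcases h _ (hQ p q hp hq) with h1 | h1
  · apply hq1
    rw [map_mul] at h1
    have h2 : (φ p).1.1 * (φ q).1.1 = 1 := h1
    rwa [hp1, one_mul] at h2
  · apply hp2
    rw [map_mul] at h1
    have h2 : (φ p).1.2 * (φ q).1.2 = 1 := h1
    rwa [hq2, mul_one] at h2

theorem dichL (hC : CM A) (hN : NM N) (φ : fib N →* fib M) (hφ : Function.Injective φ) :
    (∀ p : fib N, p.1.2 = 1 → (φ p).1.2 = 1) ∨ (∀ p : fib N, p.1.2 = 1 → (φ p).1.1 = 1) := by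
  refine dich φ (fun p => p.1.2 = 1) ?_ (stepL hC hN φ hφ)
  intro p q hp hq
  show p.1.2 * q.1.2 = 1
  rw [hp, hq, mul_one]

theorem dichR (hC : CM A) (hN : NM N) (φ : fib N →* fib M) (hφ : Function.Injective φ) :
    (∀ p : fib N, p.1.1 = 1 → (φ p).1.2 = 1) ∨ (∀ p : fib N, p.1.1 = 1 → (φ p).1.1 = 1) := by
  refine dich φ (fun p => p.1.1 = 1) ?_ (stepR hC hN φ hφ)
  intro p q hp hq
  show p.1.1 * q.1.1 = 1
  rw [hp, hq, mul_one]

theorem NM.ne (hN : NM N) : ∃ n ∈ N, n ≠ 1 := by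
  obtain ⟨x, hx, y, hy, z, hz, w, hw, hne⟩ := hN
  by_contra hcon
  push Not at hcon
  apply hne
  rw [hcon x hx, hcon y hy, hcon z hz, hcon w hw]
  simp [cm]

/-- the main case -/
theorem main_case (φ : fib N ≃* fib M)
    (h1 : ∀ p : fib N, p.1.2 = 1 → (φ p).1.2 = 1)
    (h2 : ∀ p : fib N, p.1.1 = 1 → (φ p).1.1 = 1)
    (h3 : ∀ p : fib M, p.1.2 = 1 → (φ.symm p).1.2 = 1)
    (h4 : ∀ p : fib M, p.1.1 = 1 → (φ.symm p).1.1 = 1) :
    ∃ ψ : A ≃* A, ∀ g, g ∈ N ↔ ψ g ∈ M := by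
  let ψ : A →* A :=
    { toFun := fun g => (φ (dg N g)).1.1
      map_one' := by
        have : dg N 1 = 1 := rfl
        rw [this, map_one]
        rfl
      map_mul' := by
        intro x y
        have : dg N (x * y) = dg N x * dg N y := rfl
        rw [this, map_mul]
        rfl }
  have hinj : Function.Injective ψ := by
    rw [injective_iff_map_eq_one]
    intro g hg
    have := h4 (φ (dg N g)) hg
    rw [MulEquiv.symm_apply_apply] at this
    exact this
  have hsurj : Function.Surjective ψ := by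
    intro h
    have hp := (φ.symm (dg M h)).2
    rw [mem_fib] at hp
    set p := φ.symm (dg M h) with hpdef
    have hmem : p.1.2⁻¹ * p.1.1 ∈ N := by
      have h5 : p.1.2⁻¹ * p.1.1 = p.1.2⁻¹ * (p.1.1 * p.1.2⁻¹) * p.1.2⁻¹⁻¹ := by group
      rw [h5]
      exact Subgroup.Normal.conj_mem inferInstance _ hp _
    refine ⟨p.1.1, ?_⟩
    have h6 : dg N p.1.1 = p * rt N _ hmem := by
      apply Subtype.ext
      apply Prod.ext
      · show p.1.1 = p.1.1 * 1
        rw [mul_one]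
      · show p.1.1 = p.1.2 * (p.1.2⁻¹ * p.1.1)
        group
    show (φ (dg N p.1.1)).1.1 = h
    have h7 : φ p = dg M h := φ.apply_symm_apply _
    rw [h6, map_mul]
    show (φ p).1.1 * (φ (rt N _ hmem)).1.1 = h
    rw [h2 (rt N _ hmem) rfl, mul_one, h7]
    rfl
  refine ⟨MulEquiv.ofBijective ψ ⟨hinj, hsurj⟩, fun g => ⟨fun hg => ?_, fun hg => ?_⟩⟩
  · show (φ (dg N g)).1.1 ∈ M
    have h6 : dg N g = lf N g hg * rt N g hg := by
      apply Subtype.ext
      apply Prod.ext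
      · show g = g * 1
        rw [mul_one]
      · show g = 1 * g
        rw [one_mul]
    rw [h6, map_mul]
    show (φ (lf N g hg)).1.1 * (φ (rt N g hg)).1.1 ∈ M
    rw [h2 (rt N g hg) rfl, mul_one]
    exact left_mem M _ (h1 (lf N g hg) rfl)
  · have hg' : (φ (dg N g)).1.1 ∈ M := hg
    have h6 : dg N g * (φ.symm (lf M _ hg'))⁻¹ = φ.symm (φ (dg N g) * (lf M _ hg')⁻¹) := by
      rw [map_mul, map_inv, MulEquiv.symm_apply_apply]
    have h7 : (φ (dg N g) * (lf M _ hg')⁻¹).1.1 = 1 := by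
      show (φ (dg N g)).1.1 * (φ (dg N g)).1.1⁻¹ = 1
      group
    have h8 := h4 _ h7
    rw [← h6] at h8
    have h9 : g * (φ.symm (lf M _ hg')).1.1⁻¹ = 1 := h8
    have h10 : g = (φ.symm (lf M _ hg')).1.1 := by
      rwa [mul_inv_eq_one] at h9
    rw [h10]
    exact left_mem N _ (h3 _ rfl)

theorem half (hC : CM A) (hN : NM N) (hM : NM M) (φ : fib N ≃* fib M)
    (h1 : ∀ p : fib N, p.1.2 = 1 → (φ p).1.2 = 1) :
    ∃ ψ : A ≃* A, ∀ g, g ∈ N ↔ ψ g ∈ M := by
  obtain ⟨n, hn, hn1⟩ := NM.ne hN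
  have i1 : Function.Injective φ.toMonoidHom := φ.injective
  have i2 : Function.Injective φ.symm.toMonoidHom := φ.symm.injective
  have h3 : ∀ p : fib M, p.1.2 = 1 → (φ.symm p).1.2 = 1 := by
    rcases dichL hC hM φ.symm.toMonoidHom i2 with h | h
    · exact h
    · exfalso
      have := h (φ (lf N n hn)) (h1 _ rfl)
      have h5 : (φ.symm (φ (lf N n hn))).1.1 = 1 := this
      rw [MulEquiv.symm_apply_apply] at h5
      exact hn1 h5
  have h2 : ∀ p : fib N, p.1.1 = 1 → (φ p).1.1 = 1 := by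
    rcases dichR hC hN φ.toMonoidHom i1 with h | h
    · exfalso
      have h5 := h3 (φ (rt N n hn)) (h _ rfl)
      rw [MulEquiv.symm_apply_apply] at h5
      exact hn1 h5
    · exact h
  have h4 : ∀ p : fib M, p.1.1 = 1 → (φ.symm p).1.1 = 1 := by
    rcases dichR hC hM φ.symm.toMonoidHom i2 with h | h
    · exfalso
      have h5 : (φ.symm (φ (rt N n hn))).1.2 = 1 := h (φ (rt N n hn)) (h2 _ rfl)
      rw [MulEquiv.symm_apply_apply] at h5
      exact hn1 h5
    · exact h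
  exact main_case φ h1 h2 h3 h4

/-- the exchange of the components -/
def swapE (M : Subgroup A) [M.Normal] : fib M ≃* fib M where
  toFun p := ⟨(p.1.2, p.1.1), by
    have := M.inv_mem p.2
    rw [mul_inv_rev, inv_inv] at this
    exact this⟩
  invFun p := ⟨(p.1.2, p.1.1), by
    have := M.inv_mem p.2
    rw [mul_inv_rev, inv_inv] at this
    exact this⟩
  left_inv p := rfl
  right_inv p := rfl
  map_mul' p q := rfl

end

theorem main : Pool.Agent.W598.IA.S_FIBISO := by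
  intro A _ N₁ N₂ _ _ hC h1 h2 ⟨φ⟩
  have i1 : Function.Injective φ.toMonoidHom := φ.injective
  rcases dichL hC h1 φ.toMonoidHom i1 with h | h
  · exact half hC h1 h2 φ h
  · exact half hC h1 h2 (φ.trans (swapE N₂)) h

end Pool.Agent.W599.IA
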